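import Pool.Agent.Y563.SE.Main

/-!
# Axiom (SEAC) (i) in the complex exponential field: varieties over a curve in the torus

`G_n = ℂ^n × (ℂ^*)^n`; its elements are functions on `Fin n ⊕ Fin n` (`Sum.inl`: the coordinates
`x`, `Sum.inr`: the coordinates `y`).  The exponential points are the points `(z, e^z)`.

(B) Every free irreducible `V ⊆ G_n` of dimension at least `n` whose projection to `(ℂ^*)^n` has
dimension at most one contains exponential points, also outside of any subvariety `H(y) = 0` which
does not contain `V` (such a `V` is automatically rotund).  The new case is `V = S × C` with a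
hypersurface `S ⊆ ℂ^n` and a curve `C ⊆ (ℂ^*)^n`.  The same holds for all translates of `V`.

(A) Let `V ⊆ G_n` be any irreducible variety of dimension `n` defined over a countable field `K`.
For almost all `c` in `G_n` all exponential points of the translate `c V`
are generic: they have transcendence degree `n = dim V` over `K(c)`.

Together: (SEAC) (i), with the genericity, holds in `(ℂ, exp)` for almost all translates `c V`, `V`
as in (B) of dimension `n`.

Proof of (B) (library `Pool.Agent.W996.EC` of the starting files, where the theorem was not handed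
in): if `P` has no zero on the solutions of `exp x = R(t)`, `t` in the curve, then neither have the
limits of the polynomials `c_j P(x + 2 π i M_j)`, `M_j ∈ ℤ^n`; these are classified.
Proof of (A): `c` is the image of `(z, u)`, `u ∈ V`; the pairs with an additional algebraic relation
between `z, e^z, u` are the zeros of countably many nonzero analytic functions on a space of the
same dimension `2 n`, so the exceptional `c` form a null set.
-/

set_option autoImplicit false

open MvPolynomial MeasureTheory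

namespace Pool.Agent.Results.MP_209724_lc.CurvesInTheTorus

/-- `V` is the set of points of `G_n = ℂ^n × (ℂ^*)^n` on which the prime ideal `P` vanishes: an
irreducible subvariety. -/
structure IsVariety {n : ℕ} (P : Ideal (MvPolynomial (Fin n ⊕ Fin n) ℂ))
    (V : Set (Fin n ⊕ Fin n → ℂ)) : Prop where
  prime : P.IsPrime
  points : V = {p | (∀ f ∈ P, eval p f = 0) ∧ ∀ j : Fin n, p (Sum.inr j) ≠ 0}
  nonempty : V.Nonempty

/-- `V` is free: it lies in no set `∑ m_j x_j = c` and in no set `∏ y_j ^ m_j = c`, `m ≠ 0`. -/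
structure Free {n : ℕ} (V : Set (Fin n ⊕ Fin n → ℂ)) : Prop where
  add : ∀ m : Fin n → ℤ, m ≠ 0 → ∀ c : ℂ, ∃ p ∈ V, (∑ j : Fin n, (m j : ℂ) * p (Sum.inl j)) ≠ c
  mul : ∀ m : Fin n → ℤ, m ≠ 0 → ∀ c : ℂ, ∃ p ∈ V, (∏ j : Fin n, p (Sum.inr j) ^ (m j)) ≠ c

/-- the coordinates with index in `J` are algebraically independent on `V` -/
def Indep {n : ℕ} (V : Set (Fin n ⊕ Fin n → ℂ)) (J : Finset (Fin n ⊕ Fin n)) : Prop :=
  ∀ f : MvPolynomial (Fin n ⊕ Fin n) ℂ, f.vars ⊆ J → (∀ p ∈ V, eval p f = 0) → f = 0

/-- `dim V = d`: the largest number of algebraically independent coordinates is `d` -/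
def HasDim {n : ℕ} (V : Set (Fin n ⊕ Fin n → ℂ)) (d : ℕ) : Prop :=
  (∃ J, J.card = d ∧ Indep V J) ∧ ∀ J, J.card = d + 1 → ¬ Indep V J

/-- the translate `c V` -/
def Translate {n : ℕ} (c : Fin n ⊕ Fin n → ℂ) (V : Set (Fin n ⊕ Fin n → ℂ)) :
    Set (Fin n ⊕ Fin n → ℂ) :=
  {p | ∃ u ∈ V, p = Sum.elim (fun i => u (Sum.inl i) + c (Sum.inl i))
    (fun i => c (Sum.inr i) * u (Sum.inr i))}

/-- the exponential point `(z, e^z)` -/
noncomputable def ExpPoint {n : ℕ} (z : Fin n → ℂ) : Fin n ⊕ Fin n → ℂ :=
  Sum.elim z (fun i => Complex.exp (z i))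

/-- `tr.deg_{K(c)} K(c)(z, e^z)` -/
noncomputable def trdegOver {n : ℕ} (K : Subfield ℂ) (c : Fin n ⊕ Fin n → ℂ) (z : Fin n → ℂ) :
    Cardinal :=
  Algebra.trdeg (IntermediateField.adjoin K (Set.range c))
    (IntermediateField.adjoin (IntermediateField.adjoin K (Set.range c)) (Set.range (ExpPoint z)))

theorem result {n : ℕ} (P : Ideal (MvPolynomial (Fin n ⊕ Fin n) ℂ))
    (V : Set (Fin n ⊕ Fin n → ℂ)) (hV : IsVariety P V) :
    -- (A) genericity is automatic on almost all translates of a variety of dimension `n` which is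
    -- defined over a countable field `K`
    (HasDim V n → ∀ (K : Subfield ℂ) [Countable K],
      (∃ S : Set (MvPolynomial (Fin n ⊕ Fin n) K),
        P = Ideal.span (MvPolynomial.map (algebraMap K ℂ) '' S)) →
      ∀ᵐ c : Fin n ⊕ Fin n → ℂ, ∀ z : Fin n → ℂ, ExpPoint z ∈ Translate c V →
        trdegOver K c z = n) ∧
    -- (B) existence on all translates if the projection to the torus has dimension at most one
    (Free V → (∃ d, n ≤ d ∧ HasDim V d) → (∀ i j : Fin n, ∃ f : MvPolynomial (Fin 2) ℂ, f ≠ 0 ∧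
        ∀ p ∈ V, eval ![p (Sum.inr i), p (Sum.inr j)] f = 0) →
      ∀ c : Fin n ⊕ Fin n → ℂ, (∀ i, c (Sum.inr i) ≠ 0) → ∀ H : MvPolynomial (Fin n) ℂ,
        (∃ p ∈ Translate c V, eval (fun j => p (Sum.inr j)) H ≠ 0) →
        ∃ z : Fin n → ℂ, ExpPoint z ∈ Translate c V ∧
          eval (fun j => Complex.exp (z j)) H ≠ 0) := by
  constructor
  · rintro ⟨-, hd⟩ K hK ⟨S, hS⟩
    refine Pool.Agent.Y563.SE.generic_pts P V hV.prime hV.points hV.nonempty ?_ K S hS
    intro J hJ
    have h1 := hd J hJ
    unfold Indep at h1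
    push Not at h1
    obtain ⟨f, h2, h3, h4⟩ := h1
    exact ⟨f, h4, h2, h3⟩
  · rintro ⟨hadd, hmul⟩ ⟨d, hnd, ⟨J, hJ, hJi⟩, -⟩ hcurve c hc H hH
    exact Pool.Agent.Y563.SE.exists_pt P V hV.prime hV.points hadd hmul
      ⟨J, by omega, hJi⟩ hcurve c hc H hH

end Pool.Agent.Results.MP_209724_lc.CurvesInTheTorus
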