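import Pool.Agent.Y562.SX.Main

/-!
# Schanuel's inequality at almost all algebraic points of analytic curves, up to slowly growing complexity

Let `z = (z_1, ..., z_n)` be analytic functions on a connected open set, no nontrivial rational combination of which
is constant. At an algebraic point `t`, Schanuel's conjecture (axiom SC for the complex exponential) predicts that
`n` of the `2 n` numbers `z_i(t)`, `exp (z_i(t))` are algebraically independent as soon as the `z_i(t)` are linearly
independent over the rationals. We show that this holds, up to slowly growing degree and height, and even relative to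
arbitrary complex constants and approximately, at almost all algebraic points, and for almost all tuples of points on
several curves.
-/

set_option autoImplicit false

open NumberField Filter

namespace Pool.Agent.Results.MP_209724_lc.SchanuelOnAnalyticCurves

/-- the element `x` of the number field `K` is a quotient of two integers of `K` all of whose conjugates have absolute
value at most `T` -/
def HeightLe (K : Type) [Field K] [NumberField K] (T : ℝ) (x : K) : Prop :=
  ∃ a b : 𝓞 K, b ≠ 0 ∧ (∀ φ : K →+* ℂ, ‖φ (a : K)‖ ≤ T) ∧ (∀ φ : K →+* ℂ, ‖φ (b : K)‖ ≤ T) ∧ x = a / b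

/-- the points of the disc of radius `k` at distance at least `1 / k` from the complement of `U`; these compact sets
exhaust the open set `U` -/
def Core (U : Set ℂ) (k : ℕ) : Set ℂ := {w | ‖w‖ ≤ k ∧ Metric.ball w (k : ℝ)⁻¹ ⊆ U}

/-- the elements of `K` of height at most `T` which lie in the `k`-th compact set, for the given embedding of `K` -/
def Pts (K : Type) [Field K] [NumberField K] (io : K →+* ℂ) (U : Set ℂ) (k : ℕ) (T : ℝ) : Set K :=
  {x | HeightLe K T x ∧ io x ∈ Core U k}

/-- the value at `t` of the function `z i` (for `Sum.inl i`) or `exp (z i)` (for `Sum.inr i`) -/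
noncomputable def val {n : ℕ} (z : Fin n → ℂ → ℂ) (a : Fin n ⊕ Fin n) (t : ℂ) : ℂ :=
  match a with
  | Sum.inl i => z i t
  | Sum.inr i => Complex.exp (z i t)

/-- the numbers `w x` satisfy, up to the error `η`, a polynomial relation of partial degrees at most `k`, whose
coefficients are combinations `∑ ξ i * c i` of the given complex numbers `ξ i`, where the `c i` are integers of `K` with
all conjugates of absolute value at most `T ^ k`: the value at `w` of the polynomial is at most `η` times one of its
nonzero coefficients -/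
def Relation {X : Type} (K : Type) [Field K] [NumberField K] (io : K →+* ℂ) (k : ℕ) (T η : ℝ) (ξ : Fin k → ℂ)
    (w : X → ℂ) : Prop :=
  ∃ P : MvPolynomial X ℂ, (∀ x, P.degreeOf x ≤ k) ∧
    (∀ s, ∃ c : Fin k → 𝓞 K, (∀ i (φ : K →+* ℂ), ‖φ (c i : K)‖ ≤ T ^ k) ∧ P.coeff s = ∑ i, ξ i * io (c i : K)) ∧
    ∃ s, P.coeff s ≠ 0 ∧ ‖MvPolynomial.aeval w P‖ ≤ η * ‖P.coeff s‖

/-- the functions `f x` are algebraically independent over the field `ℂ(t)` of rational functions on `U` -/
def Independent {X : Type} (U : Set ℂ) (f : X → ℂ → ℂ) : Prop :=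
  ∀ P : MvPolynomial (Option X) ℂ,
    (∀ t ∈ U, MvPolynomial.eval (fun o : Option X => o.elim t fun x => f x t) P = 0) → P = 0

/-- **Theorem.** Let `U 0, U 1, ...` be connected open subsets of the complex plane, and for each `j` let
`z j = (z j 1, ..., z j n)` be analytic functions on `U j`, no nontrivial rational combination of which is constant.

(1) For each `j` there are `n` of the `2 n` functions `z j i`, `exp (z j i)` which are algebraically independent over
`ℂ(t)` (Ax).

(2) For each `j` let `r` of the `2 n` functions `z j i`, `exp (z j i)` be given which are algebraically independent over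
`ℂ(t)`; for instance `n` functions as in (1). Then, for every function `β` which tends to infinity, there is a function
`ω` to the natural numbers which tends to infinity with the following property for all large `T`. Let `N ≤ ω T`, let
`K` be a number field of degree at most `ω T`, embedded in `ℂ`, and let `ξ` be any `ω T` complex numbers. Then the
tuples `(t 0, ..., t (N - 1))` of points of `K` of height at most `T`, with `t j` in the compact subset
`Core (U j) (ω T)` of `U j`, for which the `r N` values at `t j` of the given functions satisfy a relation of complexity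
at most `ω T` relative to `ξ`, even up to the error `T ^ (- β T)`, number at most
`T ^ (1 / ω T) * ∑ j, ∏_{i ≠ j} # Pts_i`; all tuples number `∏_i # Pts_i`. -/
theorem result {n : ℕ} (U : ℕ → Set ℂ) (hUo : ∀ j, IsOpen (U j)) (hUc : ∀ j, IsConnected (U j))
    (z : ℕ → Fin n → ℂ → ℂ) (hz : ∀ j i, AnalyticOnNhd ℂ (z j i) (U j))
    (hq : ∀ j, ∀ q : Fin n → ℚ, (∃ c : ℂ, ∀ x ∈ U j, ∑ i, (q i : ℂ) * z j i x = c) → q = 0) :
    (∃ I : ℕ → Fin n → Fin n ⊕ Fin n, (∀ j, Function.Injective (I j)) ∧
      ∀ j, Independent (U j) fun i => val (z j) (I j i)) ∧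
    ∀ (r : ℕ) (J : ℕ → Fin r → Fin n ⊕ Fin n), (∀ j, Independent (U j) fun i => val (z j) (J j i)) →
      ∀ β : ℝ → ℝ, Tendsto β atTop atTop → ∃ ω : ℝ → ℕ, Tendsto ω atTop atTop ∧ Monotone ω ∧
        ∀ᶠ T : ℝ in atTop, ∀ N ≤ ω T, ∀ (K : Type) [Field K] [NumberField K], Module.finrank ℚ K ≤ ω T →
          ∀ (io : K →+* ℂ) (ξ : Fin (ω T) → ℂ),
            {t : Fin N → K | (∀ j : Fin N, t j ∈ Pts K io (U j) (ω T) T) ∧
              Relation K io (ω T) T (T ^ (-β T)) ξ
                (fun x : Fin N × Fin r => val (z x.1) (J x.1 x.2) (io (t x.1)))}.Finite ∧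
            ({t : Fin N → K | (∀ j : Fin N, t j ∈ Pts K io (U j) (ω T) T) ∧
              Relation K io (ω T) T (T ^ (-β T)) ξ
                (fun x : Fin N × Fin r => val (z x.1) (J x.1 x.2) (io (t x.1)))}.ncard : ℝ) ≤
              T ^ (1 / (ω T : ℝ)) * ∑ j : Fin N, ∏ i ∈ Finset.univ.erase j, ((Pts K io (U i) (ω T) T).ncard : ℝ) := by
  classical
  have hval : ∀ (y : Fin n → ℂ → ℂ) (a : Fin n ⊕ Fin n), val y a = Pool.Agent.Y562.SX.ze y a := by
    rintro y (i | i) <;> rfl
  refine ⟨?_, fun r J hJ β hβ => ?_⟩
  · choose I hI hI' using fun j =>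
      Pool.Agent.Y562.SX.exists_ind (hUc j).isPreconnected (hUo j) (hUc j).nonempty (hz j) (hq j)
    refine ⟨I, hI, fun j => ?_⟩
    simp only [hval]
    exact hI' j
  obtain ⟨ω, T₀, h1, h2, h3⟩ := Pool.Agent.Y562.SX.main (U := U) (f := fun j i => val (z j) (J j i))
    (fun j => (hUc j).isPreconnected) (fun j i => by
      rw [hval]
      exact Pool.Agent.Y562.SX.ze_an (hz j) _) (fun j => hJ j) β hβ
  refine ⟨ω, h1, h2, ?_⟩
  filter_upwards [eventually_ge_atTop T₀, eventually_ge_atTop 0] with T hT hT0 N hN K _ _ hK io ξ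
  obtain ⟨-, h4⟩ := h3 T hT
  obtain ⟨h5, h6⟩ := h4 N hN K hK io ξ
  have hht : ∀ x : K, HeightLe K T x ↔ Pool.Agent.Y120.HtLe K T x := by
    intro x
    constructor
    · rintro ⟨a, b, hb, ha1, hb1, hx⟩
      exact ⟨a, b, hb, Pool.Agent.Y120.house_le K hT0 ha1, Pool.Agent.Y120.house_le K hT0 hb1, hx⟩
    · rintro ⟨a, b, hb, ha1, hb1, hx⟩
      exact ⟨a, b, hb, fun φ => (Pool.Agent.Y120.house_ge K _ φ).trans ha1,
        fun φ => (Pool.Agent.Y120.house_ge K _ φ).trans hb1, hx⟩
  have hpts : ∀ i, Pts K io (U i) (ω T) T =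
      {x : K | Pool.Agent.Y120.HtLe K T x ∧ io x ∈ Pool.Agent.Y890.SP.Core (U i) (ω T)} := by
    intro i
    ext x
    exact and_congr (hht x) Iff.rfl
  have hset : {t : Fin N → K | (∀ j : Fin N, t j ∈ Pts K io (U j) (ω T) T) ∧
      Relation K io (ω T) T (T ^ (-β T)) ξ (fun x : Fin N × Fin r => val (z x.1) (J x.1 x.2) (io (t x.1)))} =
      Pool.Agent.Y562.SX.ExcJ N (ω T) (fun j t i => val (z j) (J j i) t)
        (fun j => Pool.Agent.Y890.SP.Core (U j) (ω T)) K io ξ (ω T) (β T) T := by
    ext t
    refine and_congr (forall_congr' fun j => and_congr (hht _) Iff.rfl) ?_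
    simp only [Relation, Real.rpow_natCast]
  rw [hset]
  refine ⟨h5, h6.trans (le_of_eq ?_)⟩
  rw [one_div]
  congr 1
  refine Finset.sum_congr rfl fun j _ => ?_
  rw [← Finset.mul_prod_erase Finset.univ _ (Finset.mem_univ j), if_pos rfl, one_mul]
  refine Finset.prod_congr rfl fun i hi => ?_
  rw [if_neg (Finset.ne_of_mem_erase hi), hpts]
  rfl

end Pool.Agent.Results.MP_209724_lc.SchanuelOnAnalyticCurves
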